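import Mathlib

set_option autoImplicit false

namespace Pool.Agent.Results.MP_ecf776_lc.Exp

/-- one single-symbol deletion, insertion or substitution, at any position -/
inductive Step {α : Type} : List α → List α → Prop
  | del (a : α) (u : List α) : Step (a :: u) u
  | ins (a : α) (u : List α) : Step u (a :: u)
  | sub (a b : α) (u : List α) : Step (a :: u) (b :: u)
  | cons (a : α) {u v : List α} : Step u v → Step (a :: u) (a :: v)

/-- `u` can be transformed into `v` by at most `k` single-symbol edits -/
def Within {α : Type} : ℕ → List α → List α → Prop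
  | 0, u, v => u = v
  | k + 1, u, v => Within k u v ∨ ∃ w, Step u w ∧ Within k w v

/-- the ball of radius `k` around `x` for the edit distance -/
def ball {α : Type} (k : ℕ) (x : List α) : Language α := {w | Within k x w}

variable {α : Type}

inductive Al : List α → List α → ℕ → Prop
  | nil : Al [] [] 0
  | del (a : α) {u v : List α} {k : ℕ} : Al u v k → Al (a :: u) v (k + 1)
  | ins (a : α) {u v : List α} {k : ℕ} : Al u v k → Al u (a :: v) (k + 1)
  | sub (a b : α) {u v : List α} {k : ℕ} : Al u v k → Al (a :: u) (b :: v) (k + 1)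
  | keep (a : α) {u v : List α} {k : ℕ} : Al u v k → Al (a :: u) (a :: v) k

theorem Step.al {u w : List α} (h : Step u w) : ∀ v k, Al w v k → ∃ j ≤ k + 1, Al u v j := by
  induction h with
  | del a u => exact fun v k h => ⟨_, le_rfl, h.del a⟩
  | ins a u =>
    intro v k h
    generalize e : a :: u = x at h
    induction h with
    | nil => cases e
    | del b h => cases e; exact ⟨_, by omega, h⟩
    | ins b _ ih => obtain ⟨j, l, h⟩ := ih e; exact ⟨_, by omega, h.ins b⟩
    | sub b c h => cases e; exact ⟨_, by omega, h.ins c⟩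
    | keep b h => cases e; exact ⟨_, by omega, h.ins _⟩
  | sub a a' u =>
    intro v k h
    generalize e : a' :: u = x at h
    induction h with
    | nil => cases e
    | del b h => cases e; exact ⟨_, by omega, h.del a⟩
    | ins b _ ih => obtain ⟨j, l, h⟩ := ih e; exact ⟨_, by omega, h.ins b⟩
    | sub b c h => cases e; exact ⟨_, by omega, h.sub a c⟩
    | keep b h => cases e; exact ⟨_, by omega, h.sub a _⟩
  | @cons a u w _ H =>
    intro v k h
    generalize e : a :: w = x at h
    induction h with
    | nil => cases e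
    | del b h => cases e; obtain ⟨j, l, h⟩ := H _ _ h; exact ⟨_, by omega, h.del a⟩
    | ins b _ ih => obtain ⟨j, l, h⟩ := ih e; exact ⟨_, by omega, h.ins b⟩
    | sub b c h => cases e; obtain ⟨j, l, h⟩ := H _ _ h; exact ⟨_, by omega, h.sub a c⟩
    | keep b h => cases e; obtain ⟨j, l, h⟩ := H _ _ h; exact ⟨_, by omega, h.keep _⟩

theorem within_iff (k : ℕ) (u v : List α) : Within k u v ↔ ∃ j ≤ k, Al u v j := by
  have cs : ∀ (a : α) k u v, Within k u v → Within k (a :: u) (a :: v) := fun a k => by
    induction k with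
    | zero => exact fun u v h => congrArg _ h
    | succ k ih => exact fun u v h => h.imp (ih _ _) fun ⟨w, s, h⟩ => ⟨_, s.cons a, ih _ _ h⟩
  refine ⟨fun h => ?_, ?_⟩
  · induction k generalizing u with
    | zero =>
      obtain rfl : u = v := h
      refine ⟨0, le_rfl, ?_⟩
      induction u with
      | nil => exact Al.nil
      | cons a u ih => exact ih.keep a
    | succ k ih =>
      rcases h with h | ⟨w, s, h⟩
      · exact (ih _ h).imp fun j h => ⟨by omega, h.2⟩
      · obtain ⟨j, l, h⟩ := ih _ h
        exact (s.al _ _ h).imp fun j h => ⟨by omega, h.2⟩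
  · rintro ⟨j, l, h⟩
    have : Within j u v := by
      clear l
      induction h with
      | nil => rfl
      | del a _ ih => exact Or.inr ⟨_, Step.del a _, ih⟩
      | ins a _ ih => exact Or.inr ⟨_, Step.ins a _, cs a _ _ _ ih⟩
      | sub a b _ ih => exact Or.inr ⟨_, Step.sub a b _, cs b _ _ _ ih⟩
      | keep a _ ih => exact cs a _ _ _ ih
    induction l with
    | refl => exact this
    | step _ ih => exact Or.inl ih

theorem lb [DecidableEq α] (f g : ℕ → α) (n L : ℕ) (φ : ℕ → ℕ → ℤ) (h0 : φ n L ≤ 0)
    (h1 : ∀ q p, q < n → p ≤ L → φ q p ≤ 1 + φ (q + 1) p)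
    (h2 : ∀ q p, q ≤ n → p < L → φ q p ≤ 1 + φ q (p + 1))
    (h3 : ∀ q p, q < n → p < L → φ q p ≤ (if f q = g p then 0 else 1) + φ (q + 1) (p + 1))
    {x y : List α} {k : ℕ} (h : Al x y k) : ∀ a b q p, q + a = n → p + b = L →
      x = (List.range' q a).map f → y = (List.range' p b).map g → φ q p ≤ k := by
  induction h with
  | nil =>
    rintro (_ | a) (_ | b) q p rfl rfl e1 e2 <;> simp [List.range'_succ] at e1 e2
    simpa using h0
  | del c _ ih =>
    rintro (_ | a) b q p e1 e2 e3 e4 <;> simp only [List.range'_succ, List.map_cons, List.cons.injEq,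
      List.range'_zero, List.map_nil, reduceCtorEq] at e3
    have := ih a b (q + 1) p (by omega) e2 e3.2 e4
    have := h1 q p (by omega) (by omega)
    omega
  | ins c _ ih =>
    rintro a (_ | b) q p e1 e2 e3 e4 <;> simp only [List.range'_succ, List.map_cons, List.cons.injEq,
      List.range'_zero, List.map_nil, reduceCtorEq] at e4
    have := ih a b q (p + 1) e1 (by omega) e3 e4.2
    have := h2 q p (by omega) (by omega)
    omega
  | sub c d _ ih =>
    rintro (_ | a) (_ | b) q p e1 e2 e3 e4 <;> simp only [List.range'_succ, List.map_cons, List.cons.injEq,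
      List.range'_zero, List.map_nil, reduceCtorEq] at e3 e4
    have := ih a b (q + 1) (p + 1) (by omega) (by omega) e3.2 e4.2
    have := h3 q p (by omega) (by omega)
    split_ifs at this <;> omega
  | keep c _ ih =>
    rintro (_ | a) (_ | b) q p e1 e2 e3 e4 <;> simp only [List.range'_succ, List.map_cons, List.cons.injEq,
      List.range'_zero, List.map_nil, reduceCtorEq] at e3 e4
    have := ih a b (q + 1) (p + 1) (by omega) (by omega) e3.2 e4.2
    have := h3 q p (by omega) (by omega)
    rw [if_pos (e3.1.symm.trans e4.1)] at this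
    omega

/-- number of `i < t` with `S i` -/
def c (S : ℕ → Bool) : ℕ → ℕ
  | 0 => 0
  | t + 1 => c S t + (S t).toNat

def G (w : ℕ) (S : ℕ → Bool) (t e p : ℕ) : ℕ :=
  if p < 2 * w then (if p % 2 = 1 ∧ (S (p / 2)).toNat = 1 then p / 2 + 1 else 0)
  else if p < 2 * w + e then p - t + 1 else 0

theorem key (w : ℕ) (S : ℕ → Bool) (t e : ℕ) (ht : t ≤ w) (he : e ≤ t) :
    Within (2 * w) ((List.range' 0 (2 * w)).map fun q => Fin.ofNat (2 * w + 1) (q + 1))
      ((List.range' 0 (2 * w + t)).map fun p => Fin.ofNat (2 * w + 1) (G w S t e p)) ↔ t ≤ c S t + e := by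
  have st : ∀ p, c S (min t ((p + 1) / 2)) =
      c S (min t (p / 2)) + if p % 2 = 1 ∧ p / 2 < t then (S (p / 2)).toNat else 0 := fun p => by
    split_ifs with h
    · rw [show min t ((p + 1) / 2) = p / 2 + 1 by omega, show min t (p / 2) = p / 2 by omega, c]
    · rw [show min t ((p + 1) / 2) = min t (p / 2) by omega]; rfl
  obtain ⟨f, hf⟩ : ∃ f, f = fun q => Fin.ofNat (2 * w + 1) (q + 1) := ⟨_, rfl⟩
  obtain ⟨g, hg⟩ : ∃ g, g = fun p => Fin.ofNat (2 * w + 1) (G w S t e p) := ⟨_, rfl⟩
  have eq : ∀ q p, q < 2 * w → p < 2 * w + t → (f q = g p ↔ q + 1 = G w S t e p) := fun q p a b => by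
    rw [hf, hg, Fin.ext_iff, Fin.val_ofNat, Fin.val_ofNat, Nat.mod_eq_of_lt (by omega),
      Nat.mod_eq_of_lt (by unfold G; split_ifs <;> omega)]
  rw [← hf, ← hg, within_iff]
  refine ⟨fun ⟨j, l, h⟩ => ?_, fun h => ?_⟩
  · have := lb f g (2 * w) (2 * w + t) (fun q p => (2 * w + t - p : ℕ) +
      (p - (q + t + if 2 * q < p then 1 else 0) : ℕ)
        - c S t + c S (min t (p / 2)) - (2 * w + e - max p (2 * w) : ℕ))
      (by rw [show min t ((2 * w + t) / 2) = t by omega]; split_ifs <;> omega)
      (fun q p a b => by split_ifs <;> omega)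
      (fun q p a b => by have := st p; split_ifs at * <;> omega)
      (fun q p a b => by
        have := st p
        have := Bool.toNat_le (S (p / 2))
        simp only [eq q p a b, G]
        split_ifs at * <;> omega) h _ _ 0 0 (zero_add _) (zero_add _) rfl rfl
    simp only [Nat.zero_div, Nat.min_zero, c] at this
    omega
  · have : ∀ b p, p + b = 2 * w + t → ∃ j, Al ((List.range' (max (p / 2) (p - t))
        (2 * w - max (p / 2) (p - t))).map f) ((List.range' p b).map g) j ∧
        j + c S t + (2 * w + e - max p (2 * w)) ≤ b + c S (min t (p / 2)) := fun b => by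
      induction b with
      | zero =>
        intro p h
        rw [show 2 * w - max (p / 2) (p - t) = 0 by omega, show min t (p / 2) = t by omega]
        exact ⟨0, Al.nil, by omega⟩
      | succ b ih =>
        intro p h
        obtain ⟨j, a, l⟩ := ih (p + 1) (by omega)
        have s := st p
        have := Bool.toNat_le (S (p / 2))
        by_cases k : p < 2 * t ∧ p % 2 = 0
        · rw [show max ((p + 1) / 2) (p + 1 - t) = max (p / 2) (p - t) by omega] at a
          exact ⟨_, a.ins _, by split_ifs at s <;> omega⟩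
        · rw [show max ((p + 1) / 2) (p + 1 - t) = max (p / 2) (p - t) + 1 by omega] at a
          rw [show 2 * w - max (p / 2) (p - t) = 2 * w - (max (p / 2) (p - t) + 1) + 1 by omega,
            List.range'_succ, List.range'_succ, List.map_cons, List.map_cons]
          by_cases m : f (max (p / 2) (p - t)) = g p
          · exact ⟨j, by rw [m]; exact a.keep _, by split_ifs at s <;> omega⟩
          · refine ⟨_, a.sub _ _, ?_⟩
            rw [eq _ p (by omega) (by omega), G] at m
            split_ifs at s m <;> omega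
    obtain ⟨j, a, l⟩ := this _ 0 (zero_add _)
    simp only [Nat.zero_div, zero_tsub, max_self, tsub_zero, Nat.min_zero, c] at a l
    exact ⟨j, by omega, a⟩

theorem main (w : ℕ) {σ : Type} [Fintype σ] (M : DFA (Fin (2 * w + 1)) σ)
    (h : M.accepts = ball (2 * w) ((List.range' 0 (2 * w)).map fun q => Fin.ofNat (2 * w + 1) (q + 1))) :
    2 ^ w ≤ Fintype.card σ := by
  obtain ⟨u, hu⟩ : ∃ u : (ℕ → Bool) → σ, ∀ S, u S = M.eval ((List.range' 0 (2 * w)).map
    fun p => Fin.ofNat (2 * w + 1) (G w S 0 0 p)) := ⟨_, fun _ => rfl⟩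
  have cl : ∀ S t, c S t ≤ t := fun S t => by
    induction t with
    | zero => rfl
    | succ t ih => have := Bool.toNat_le (S t); rw [c]; omega
  have ac : ∀ S t e, t ≤ w → e ≤ t → (M.evalFrom (u S) ((List.range' (2 * w) t).map
      fun p => Fin.ofNat (2 * w + 1) (G w (fun _ => false) t e p)) ∈ M.accept ↔ t ≤ c S t + e) := by
    intro S t e a b
    have : (List.range' 0 (2 * w + t)).map (fun p => Fin.ofNat (2 * w + 1) (G w S t e p)) =
        (List.range' 0 (2 * w)).map (fun p => Fin.ofNat (2 * w + 1) (G w S 0 0 p)) ++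
        (List.range' (2 * w) t).map fun p => Fin.ofNat (2 * w + 1) (G w (fun _ => false) t e p) := by
      rw [← List.range'_append_1, List.map_append, zero_add]
      congr 1 <;> refine List.map_congr_left fun p hp => ?_ <;> rw [List.mem_range'_1] at hp
      · rw [G, G, if_pos (show p < 2 * w by omega), if_pos (show p < 2 * w by omega)]
      · rw [G, G, if_neg (show ¬ p < 2 * w by omega), if_neg (show ¬ p < 2 * w by omega)]
    rw [hu, DFA.eval, ← DFA.evalFrom_of_append, ← this]
    refine Iff.trans (b := _ ∈ M.accepts) Iff.rfl ?_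
    rw [h]
    exact key w S t e a b
  have le : ∀ S S', u S = u S' → ∀ t ≤ w, c S t ≤ c S' t := fun S S' e t a => by
    have := cl S t
    have := (ac S' t (t - c S t) a (by omega)).1 (e ▸ (ac S t (t - c S t) a (by omega)).2 (by omega))
    omega
  have := Fintype.card_le_of_injective (fun S : Fin w → Bool =>
    u fun i => if k : i < w then S ⟨i, k⟩ else false) fun S S' e => funext fun i => by
      have := le _ _ e i (by omega)
      have := le _ _ e.symm i (by omega)
      have := le _ _ e (i + 1) (by omega)
      have := le _ _ e.symm (i + 1) (by omega)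
      simp only [c, i.2, dif_pos, Fin.eta] at *
      have : (S i).toNat = (S' i).toNat := by omega
      revert this
      cases S i <;> cases S' i <;> decide
  simpa using this

theorem result : ∃ c : ℝ, 0 < c ∧ ∀ N : ℕ, ∃ (s : ℕ) (x : List (Fin s)) (k : ℕ),
    N ≤ min k x.length ∧ ∀ (σ : Type) [Fintype σ] (M : DFA (Fin s) σ), M.accepts = ball k x →
      (2 : ℝ) ^ (c * (min k x.length : ℕ)) ≤ Fintype.card σ := by
  refine ⟨1 / 2, by norm_num, fun N => ⟨2 * N + 1,
    (List.range' 0 (2 * N)).map fun q => Fin.ofNat (2 * N + 1) (q + 1), 2 * N, by simp; omega,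
    fun σ _ M h => ?_⟩⟩
  have := main N M h
  rw [show (1 / 2 : ℝ) * (min (2 * N) ((List.range' 0 (2 * N)).map
    fun q => Fin.ofNat (2 * N + 1) (q + 1)).length : ℕ) = N by simp, Real.rpow_natCast]
  exact_mod_cast this

end Pool.Agent.Results.MP_ecf776_lc.Exp
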